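import Mathlib

/-!
# Approximate multiplicative quadruples in coloured sets of positive integers
-/

set_option autoImplicit false

namespace Pool.Agent.Zk30.AR

/-- `a b` and `c d` agree up to a factor of height at most `g` -/
def Rl4 (g a b c d : ℕ) : Prop :=
  ∃ p q : ℕ, 1 ≤ p ∧ p ≤ g ∧ 1 ≤ q ∧ q ≤ g ∧ p * (a * b) = q * (c * d)

lemma Rl4.swap1 {g a b c d : ℕ} (h : Rl4 g a b c d) : Rl4 g b a c d := by
  obtain ⟨p, q, h1, h2, h3, h4, h5⟩ := h
  exact ⟨p, q, h1, h2, h3, h4, by rw [mul_comm b a]; exact h5⟩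

lemma Rl4.swap2 {g a b c d : ℕ} (h : Rl4 g a b c d) : Rl4 g a b d c := by
  obtain ⟨p, q, h1, h2, h3, h4, h5⟩ := h
  exact ⟨p, q, h1, h2, h3, h4, by rw [mul_comm d c]; exact h5⟩

lemma Rl4.symm {g a b c d : ℕ} (h : Rl4 g a b c d) : Rl4 g c d a b := by
  obtain ⟨p, q, h1, h2, h3, h4, h5⟩ := h
  exact ⟨q, p, h3, h4, h1, h2, h5.symm⟩

lemma no_three (g r a b c : ℕ) (hr : g ^ 9 < r) (ha : a ∣ r) (hb : b ∣ r) (hc : c ∣ r)
    (hab : Nat.gcd a b ≤ g) (hac : Nat.gcd a c ≤ g) (hbc : Nat.gcd b c ≤ g)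
    (ha2 : r ≤ g * a ^ 2) (hb2 : r ≤ g * b ^ 2) (hc2 : r ≤ g * c ^ 2) : False := by
  have hr0 : 0 < r := by omega
  have h1 : Nat.lcm a b ∣ r := Nat.lcm_dvd ha hb
  have h2 : Nat.lcm (Nat.lcm a b) c ∣ r := Nat.lcm_dvd h1 hc
  have h3 : Nat.gcd (Nat.lcm a b) c ≤ g * g := by
    have h4 : Nat.gcd (Nat.lcm a b) c ∣ Nat.gcd (a * b) c :=
      Nat.gcd_dvd_gcd_of_dvd_left _ (Nat.lcm_dvd_mul a b)
    have h5 : Nat.gcd (a * b) c ∣ Nat.gcd a c * Nat.gcd b c :=
      Nat.gcd_mul_left_dvd_mul_gcd c a b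
    have hc0 : 0 < c := Nat.pos_of_dvd_of_pos hc hr0
    have h6 : 0 < Nat.gcd a c * Nat.gcd b c :=
      Nat.mul_pos (Nat.gcd_pos_of_pos_right _ hc0) (Nat.gcd_pos_of_pos_right _ hc0)
    exact (Nat.le_of_dvd h6 (h4.trans h5)).trans (Nat.mul_le_mul hac hbc)
  have h4 : a * b ≤ g * Nat.lcm a b := by
    rw [← Nat.gcd_mul_lcm a b]
    exact Nat.mul_le_mul_right _ hab
  have h5 : Nat.lcm a b * c ≤ (g * g) * r := by
    rw [← Nat.gcd_mul_lcm (Nat.lcm a b) c]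
    exact Nat.mul_le_mul h3 (Nat.le_of_dvd hr0 h2)
  have h6 : a * b * c ≤ g ^ 3 * r := by
    calc a * b * c ≤ (g * Nat.lcm a b) * c := Nat.mul_le_mul_right _ h4
      _ = g * (Nat.lcm a b * c) := by ring
      _ ≤ g * ((g * g) * r) := Nat.mul_le_mul_left _ h5
      _ = _ := by ring
  have h7 : r * r * r ≤ g ^ 9 * (r * r) := by
    calc r * r * r ≤ (g * a ^ 2) * (g * b ^ 2) * (g * c ^ 2) :=
          Nat.mul_le_mul (Nat.mul_le_mul ha2 hb2) hc2
      _ = g ^ 3 * (a * b * c) ^ 2 := by ring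
      _ ≤ g ^ 3 * (g ^ 3 * r) ^ 2 := Nat.mul_le_mul_left _ (Nat.pow_le_pow_left h6 2)
      _ = _ := by ring
  have h8 : g ^ 9 * (r * r) < r * (r * r) := Nat.mul_lt_mul_of_pos_right hr (Nat.mul_pos hr0 hr0)
  have h9 : r * r * r = r * (r * r) := by ring
  omega

/-- the cofactor of the greatest common divisor divides -/
lemma cof_dvd {p q r1 r2 r3 r4 b : ℕ} (h : p * (r1 * r2) = q * (r3 * r4)) (h1 : 0 < r1)
    (hb : r1 = Nat.gcd r1 r3 * b) : b ∣ q * r4 := by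
  set a := Nat.gcd r1 r3 with ha
  have ha0 : 0 < a := Nat.gcd_pos_of_pos_left _ h1
  obtain ⟨c, hc⟩ : a ∣ r3 := Nat.gcd_dvd_right _ _
  have hcop : Nat.Coprime b c := by
    have h2 : r1 / a = b := by
      rw [hb]
      exact Nat.mul_div_cancel_left _ ha0
    have h3 : r3 / a = c := by
      rw [hc]
      exact Nat.mul_div_cancel_left _ ha0
    have h4 := Nat.coprime_div_gcd_div_gcd (m := r1) (n := r3) (by rw [← ha]; exact ha0)
    rw [← ha, h2, h3] at h4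
    exact h4
  have h5 : b * (p * r2) = c * (q * r4) := by
    have h6 : a * (b * (p * r2)) = a * (c * (q * r4)) := by
      calc a * (b * (p * r2)) = p * ((a * b) * r2) := by ring
        _ = p * (r1 * r2) := by rw [← hb]
        _ = q * (r3 * r4) := h
        _ = q * ((a * c) * r4) := by rw [← hc]
        _ = _ := by ring
    exact Nat.eq_of_mul_eq_mul_left ha0 h6
  have h7 : b ∣ c * (q * r4) := ⟨p * r2, h5.symm⟩
  exact hcop.dvd_of_dvd_mul_left h7

theorem core4 (g : ℕ) (hg : 1 ≤ g) (R : Finset ℕ) (h0 : ∀ r ∈ R, 0 < r)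
    (hsep : ∀ r ∈ R, ∀ s ∈ R, r ≠ s → ∀ p q : ℕ, 1 ≤ p → p ≤ g ^ 5 → 1 ≤ q → q ≤ g ^ 5 →
      p * r ≠ q * s) {κ : Type} [DecidableEq κ] (T0 : Finset κ) (col : ℕ → κ)
    (hcol : ∀ r ∈ R, col r ∈ T0)
    (hgcd : ∀ r ∈ R, ∀ s ∈ R, r ≠ s → col r = col s → Nat.gcd r s ≤ g)
    (Q : Finset ((ℕ × ℕ) × (ℕ × ℕ)))
    (hQ : ∀ z ∈ Q, z.1.1 ∈ R ∧ z.1.2 ∈ R ∧ z.2.1 ∈ R ∧ z.2.2 ∈ R ∧
      Rl4 g z.1.1 z.1.2 z.2.1 z.2.2) :
    Q.card ≤ 2 * R.card ^ 2 + 16 * (T0.card ^ 2 * R.card) := by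
  classical
  have hg5 : g ≤ g ^ 5 := Nat.le_self_pow (by norm_num) g
  have hg2 : g * g ≤ g ^ 5 := by
    rw [← sq]; exact Nat.pow_le_pow_right hg (by norm_num)
  -- the main part
  let P : (ℕ × ℕ) × (ℕ × ℕ) → Prop := fun z =>
    z.1.1 ≠ z.2.1 ∧ z.1.1 ≠ z.2.2 ∧ z.1.2 ≤ z.1.1 ∧ z.2.1 ≤ z.1.1 ∧ z.2.2 ≤ z.1.1 ∧
      Rl4 g z.1.1 z.1.2 z.2.1 z.2.2 ∧ z.1.1 ≤ g * Nat.gcd z.1.1 z.2.1 ^ 2
  let N : Finset ((ℕ × ℕ) × (ℕ × ℕ)) := ((R ×ˢ R) ×ˢ (R ×ˢ R)).filter P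
  -- large cofactors
  have hbig : ∀ r ∈ R, ∀ s ∈ R, r ≠ s → s ≤ r → ∀ b, r = Nat.gcd r s * b → g ^ 5 < b := by
    intro r hr s hs hrs hsr b hb
    by_contra hcon
    push Not at hcon
    obtain ⟨c, hc⟩ : Nat.gcd r s ∣ s := Nat.gcd_dvd_right _ _
    have hr0 := h0 r hr
    have hs0 := h0 s hs
    have ha0 : 0 < Nat.gcd r s := Nat.gcd_pos_of_pos_left _ hr0
    set a := Nat.gcd r s with ha
    have hb0 : 0 < b := by
      rcases Nat.eq_zero_or_pos b with h | h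
      · rw [h, mul_zero] at hb; omega
      · exact h
    have hc0 : 0 < c := by
      rcases Nat.eq_zero_or_pos c with h | h
      · rw [h, mul_zero] at hc; omega
      · exact h
    have hcb : c ≤ b := by
      have : a * c ≤ a * b := by rw [← hc, ← hb]; exact hsr
      exact Nat.le_of_mul_le_mul_left this ha0
    refine hsep r hr s hs hrs c b hc0 (hcb.trans hcon) hb0 hcon ?_
    calc c * r = c * (a * b) := by rw [← hb]
      _ = b * (a * c) := by ring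
      _ = b * s := by rw [← hc]
  -- the structure of a solution with largest element `r1`
  have hstr : ∀ r1 ∈ R, ∀ r3 ∈ R, ∀ r4 ∈ R, ∀ r2, r1 ≠ r3 → r1 ≠ r4 → r3 ≤ r1 → r4 ≤ r1 →
      Rl4 g r1 r2 r3 r4 → g ^ 9 < r1 ∧ r1 ≤ g * (Nat.gcd r1 r3 * Nat.gcd r1 r4) := by
    intro r1 hr1 r3 hr3 r4 hr4 r2 h13 h14 h31 h41 hR
    obtain ⟨b3, hb3⟩ : Nat.gcd r1 r3 ∣ r1 := Nat.gcd_dvd_left _ _
    obtain ⟨b4, hb4⟩ : Nat.gcd r1 r4 ∣ r1 := Nat.gcd_dvd_left _ _
    have h3 := hbig r1 hr1 r3 hr3 h13 h31 b3 hb3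
    have h4 := hbig r1 hr1 r4 hr4 h14 h41 b4 hb4
    obtain ⟨p, q, hp1, hpg, hq1, hqg, he⟩ := hR
    have hr10 := h0 r1 hr1
    have d3 : b3 ∣ q * r4 := cof_dvd he hr10 hb3
    have d4 : b4 ∣ q * r3 := cof_dvd (by rw [mul_comm r4 r3]; exact he) hr10 hb4
    have e3 : b3 ≤ g * Nat.gcd r1 r4 := by
      have h5 : b3 ∣ q * Nat.gcd r1 r4 := by
        have h6 : b3 ∣ Nat.gcd (q * r1) (q * r4) :=
          Nat.dvd_gcd (Dvd.dvd.mul_left ⟨Nat.gcd r1 r3, by rw [mul_comm]; exact hb3⟩ q) d3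
        rwa [Nat.gcd_mul_left] at h6
      have h7 := Nat.le_of_dvd (Nat.mul_pos hq1 (Nat.gcd_pos_of_pos_left _ hr10)) h5
      exact h7.trans (Nat.mul_le_mul_right _ hqg)
    have e4 : b4 ≤ g * Nat.gcd r1 r3 := by
      have h5 : b4 ∣ q * Nat.gcd r1 r3 := by
        have h6 : b4 ∣ Nat.gcd (q * r1) (q * r3) :=
          Nat.dvd_gcd (Dvd.dvd.mul_left ⟨Nat.gcd r1 r4, by rw [mul_comm]; exact hb4⟩ q) d4
        rwa [Nat.gcd_mul_left] at h6
      have h7 := Nat.le_of_dvd (Nat.mul_pos hq1 (Nat.gcd_pos_of_pos_left _ hr10)) h5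
      exact h7.trans (Nat.mul_le_mul_right _ hqg)
    constructor
    · -- size
      have h5 : g ^ 4 < Nat.gcd r1 r3 := by
        by_contra hcon
        push Not at hcon
        have : g * Nat.gcd r1 r3 ≤ g ^ 5 := by
          calc g * Nat.gcd r1 r3 ≤ g * g ^ 4 := Nat.mul_le_mul_left _ hcon
            _ = g ^ 5 := by ring
        omega
      calc g ^ 9 = g ^ 4 * g ^ 5 := by ring
        _ < Nat.gcd r1 r3 * b3 := Nat.mul_lt_mul'' h5 h3
        _ = r1 := hb3.symm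
    · calc r1 = Nat.gcd r1 r3 * b3 := hb3
        _ ≤ Nat.gcd r1 r3 * (g * Nat.gcd r1 r4) := Nat.mul_le_mul_left _ e3
        _ = _ := by ring
  -- the fibres
  let F : (ℕ × ℕ) × (ℕ × ℕ) → ℕ × κ × κ := fun z => (z.1.1, col z.2.1, col z.2.2)
  have hN : N.card ≤ 2 * (T0.card ^ 2 * R.card) := by
    have h1 : ∀ y ∈ R ×ˢ (T0 ×ˢ T0), (N.filter fun z => F z = y).card ≤ 2 := by
      rintro ⟨r1, c3, c4⟩ hy
      obtain ⟨hr1, -⟩ := Finset.mem_product.1 hy
      set S : Finset ℕ := (N.filter fun z => F z = (r1, c3, c4)).image fun z => z.2.1 with hS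
      have hmem : ∀ z ∈ N.filter (fun z => F z = (r1, c3, c4)), z.1.1 = r1 ∧ z.1.2 ∈ R ∧
          z.2.1 ∈ R ∧ z.2.2 ∈ R ∧ col z.2.1 = c3 ∧ col z.2.2 = c4 ∧ r1 ≠ z.2.1 ∧ r1 ≠ z.2.2 ∧
          z.2.1 ≤ r1 ∧ z.2.2 ≤ r1 ∧ Rl4 g r1 z.1.2 z.2.1 z.2.2 ∧
          r1 ≤ g * Nat.gcd r1 z.2.1 ^ 2 := by
        intro z hz
        obtain ⟨h2, h3⟩ := Finset.mem_filter.1 hz
        obtain ⟨h4, h5, h6, h7, h8, h9, h10, h11⟩ := Finset.mem_filter.1 h2
        simp only [F, Prod.mk.injEq] at h3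
        obtain ⟨e1, e2, e3⟩ := h3
        rw [Finset.mem_product, Finset.mem_product, Finset.mem_product] at h4
        rw [e1] at h5 h6 h8 h9 h10 h11
        exact ⟨e1, h4.1.2, h4.2.1, h4.2.2, e2, e3, h5, h6, h8, h9, h10, h11⟩
      -- the third component determines the solution
      have hinj : Set.InjOn (fun z : (ℕ × ℕ) × (ℕ × ℕ) => z.2.1)
          (N.filter fun z => F z = (r1, c3, c4) : Finset _) := by
        intro z hz z' hz' he
        obtain ⟨a1, a2, a3, a4, a5, a6, a7, a8, a9, a10, a11, a12⟩ := hmem z (Finset.mem_coe.1 hz)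
        obtain ⟨b1, b2, b3, b4, b5, b6, b7, b8, b9, b10, b11, b12⟩ := hmem z' (Finset.mem_coe.1 hz')
        simp only at he
        obtain ⟨b, hb⟩ : Nat.gcd r1 z.2.1 ∣ r1 := Nat.gcd_dvd_left _ _
        have hbg := hbig r1 hr1 z.2.1 a3 a7 a9 b hb
        obtain ⟨p, q, hp1, hpg, hq1, hqg, he1⟩ := a11
        obtain ⟨p', q', hp1', hpg', hq1', hqg', he2⟩ := b11
        have hr10 := h0 r1 hr1
        have e4 : z.2.2 = z'.2.2 := by
          by_contra hne
          have h2 := hgcd _ a4 _ b4 hne (a6.trans b6.symm)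
          have d1 : b ∣ q * z.2.2 := cof_dvd he1 hr10 hb
          have d2 : b ∣ q' * z'.2.2 := by
            rw [← he] at he2
            exact cof_dvd he2 hr10 hb
          have d3 : b ∣ (q * q') * Nat.gcd z.2.2 z'.2.2 := by
            rw [← Nat.gcd_mul_left]
            refine Nat.dvd_gcd ?_ ?_
            · exact (d1.mul_left q').trans (dvd_of_eq (by ring))
            · exact (d2.mul_left q).trans (dvd_of_eq (by ring))
          have h3 := Nat.le_of_dvd (Nat.mul_pos (Nat.mul_pos hq1 hq1')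
            (Nat.gcd_pos_of_pos_left _ (h0 _ a4))) d3
          have h4 : (q * q') * Nat.gcd z.2.2 z'.2.2 ≤ (g * g) * g :=
            Nat.mul_le_mul (Nat.mul_le_mul hqg hqg') h2
          have h5 : (g * g) * g ≤ g ^ 5 := by
            calc (g * g) * g = g ^ 3 := by ring
              _ ≤ g ^ 5 := Nat.pow_le_pow_right hg (by norm_num)
          omega
        have e2 : z.1.2 = z'.1.2 := by
          by_contra hne
          refine hsep _ a2 _ b2 hne (p * q') (p' * q) (Nat.mul_pos hp1 hq1')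
            ((Nat.mul_le_mul hpg hqg').trans hg2) (Nat.mul_pos hp1' hq1)
            ((Nat.mul_le_mul hpg' hqg).trans hg2) ?_
          have h2 : r1 * ((p * q') * z.1.2) = r1 * ((p' * q) * z'.1.2) := by
            calc r1 * ((p * q') * z.1.2) = q' * (p * (r1 * z.1.2)) := by ring
              _ = q' * (q * (z.2.1 * z.2.2)) := by rw [he1]
              _ = q * (q' * (z'.2.1 * z'.2.2)) := by rw [← he, ← e4]; ring
              _ = q * (p' * (r1 * z'.1.2)) := by rw [he2]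
              _ = _ := by ring
          exact Nat.eq_of_mul_eq_mul_left hr10 h2
        exact Prod.ext (Prod.ext (a1.trans b1.symm) e2) (Prod.ext he e4)
      have hSc : (N.filter fun z => F z = (r1, c3, c4)).card = S.card := by
        rw [hS, Finset.card_image_of_injOn hinj]
      rw [hSc]
      by_contra hcon
      push Not at hcon
      obtain ⟨x, y, w, hx, hy, hw, hxy, hxw, hyw⟩ := Finset.two_lt_card_iff.1 hcon
      have hSm : ∀ x ∈ S, x ∈ R ∧ col x = c3 ∧ g ^ 9 < r1 ∧ r1 ≤ g * Nat.gcd r1 x ^ 2 := by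
        intro x hx
        obtain ⟨z, hz, rfl⟩ := Finset.mem_image.1 hx
        obtain ⟨a1, a2, a3, a4, a5, a6, a7, a8, a9, a10, a11, a12⟩ := hmem z hz
        exact ⟨a3, a5, (hstr r1 hr1 _ a3 _ a4 _ a7 a8 a9 a10 a11).1, a12⟩
      obtain ⟨x1, x2, x3, x4⟩ := hSm x hx
      obtain ⟨y1, y2, y3, y4⟩ := hSm y hy
      obtain ⟨w1, w2, w3, w4⟩ := hSm w hw
      have hle : ∀ x ∈ R, ∀ y ∈ R, x ≠ y → col x = c3 → col y = c3 →
          Nat.gcd (Nat.gcd r1 x) (Nat.gcd r1 y) ≤ g := by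
        intro x hx y hy hxy h2 h3
        refine le_trans (Nat.le_of_dvd (Nat.gcd_pos_of_pos_left _ (h0 x hx)) ?_)
          (hgcd x hx y hy hxy (h2.trans h3.symm))
        exact Nat.dvd_gcd ((Nat.gcd_dvd_left _ _).trans (Nat.gcd_dvd_right _ _))
          ((Nat.gcd_dvd_right _ _).trans (Nat.gcd_dvd_right _ _))
      exact no_three g r1 (Nat.gcd r1 x) (Nat.gcd r1 y) (Nat.gcd r1 w) x3
        (Nat.gcd_dvd_left _ _) (Nat.gcd_dvd_left _ _) (Nat.gcd_dvd_left _ _)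
        (hle x x1 y y1 hxy x2 y2) (hle x x1 w w1 hxw x2 w2) (hle y y1 w w1 hyw y2 w2) x4 y4 w4
    have h2 : ∀ z ∈ N, F z ∈ R ×ˢ (T0 ×ˢ T0) := by
      intro z hz
      obtain ⟨h4, -⟩ := Finset.mem_filter.1 hz
      rw [Finset.mem_product, Finset.mem_product, Finset.mem_product] at h4
      rw [Finset.mem_product, Finset.mem_product]
      exact ⟨h4.1.1, hcol _ h4.2.1, hcol _ h4.2.2⟩
    rw [Finset.card_eq_sum_card_fiberwise h2]
    calc ∑ y ∈ R ×ˢ (T0 ×ˢ T0), (N.filter fun z => F z = y).card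
        ≤ ∑ _y ∈ R ×ˢ (T0 ×ˢ T0), 2 := Finset.sum_le_sum h1
      _ = 2 * (T0.card ^ 2 * R.card) := by
          rw [Finset.sum_const, smul_eq_mul, Finset.card_product, Finset.card_product]
          ring
  -- the symmetries
  let σ : Fin 8 → (ℕ × ℕ) × (ℕ × ℕ) → (ℕ × ℕ) × (ℕ × ℕ) := ![
    fun z => z, fun z => (z.1, z.2.swap), fun z => (z.1.swap, z.2), fun z => (z.1.swap, z.2.swap),
    fun z => (z.2, z.1), fun z => (z.2, z.1.swap), fun z => (z.2.swap, z.1),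
    fun z => (z.2.swap, z.1.swap)]
  have hσ : ∀ i, Function.Injective (σ i) := by
    intro i
    fin_cases i <;> rintro ⟨⟨a, b⟩, ⟨c, d⟩⟩ ⟨⟨a', b'⟩, ⟨c', d'⟩⟩ h <;>
      simp [σ] at h ⊢ <;> tauto
  let Tr1 : Finset ((ℕ × ℕ) × (ℕ × ℕ)) := (R ×ˢ R).image fun z => (z, z)
  let Tr2 : Finset ((ℕ × ℕ) × (ℕ × ℕ)) := (R ×ˢ R).image fun z => (z, z.swap)
  have hcover : Q ⊆ (Tr1 ∪ Tr2) ∪ Finset.univ.biUnion fun i : Fin 8 =>
      Q.filter fun z => σ i z ∈ N := by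
    rintro ⟨⟨a, b⟩, ⟨c, d⟩⟩ hz
    obtain ⟨ha, hb, hc, hd, hR⟩ := hQ _ hz
    simp only at ha hb hc hd hR
    obtain ⟨p, q, hp1, hpg, hq1, hqg, he⟩ := hR
    have hR : Rl4 g a b c d := ⟨p, q, hp1, hpg, hq1, hqg, he⟩
    have ha0 := h0 a ha
    have hb0 := h0 b hb
    have hc0 := h0 c hc
    have hd0 := h0 d hd
    by_cases t1 : a = c ∧ b = d
    · rw [Finset.mem_union]; left
      rw [Finset.mem_union]; left
      exact Finset.mem_image.2 ⟨(a, b), Finset.mem_product.2 ⟨ha, hb⟩, by rw [t1.1, t1.2]⟩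
    by_cases t2 : a = d ∧ b = c
    · rw [Finset.mem_union]; left
      rw [Finset.mem_union]; right
      exact Finset.mem_image.2 ⟨(a, b), Finset.mem_product.2 ⟨ha, hb⟩, by
        rw [t2.1, t2.2]; rfl⟩
    have hac : a ≠ c := by
      intro h
      apply t1
      refine ⟨h, ?_⟩
      by_contra hne
      refine hsep b hb d hd hne p q hp1 (hpg.trans hg5) hq1 (hqg.trans hg5) ?_
      have : a * (p * b) = a * (q * d) := by
        calc a * (p * b) = p * (a * b) := by ring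
          _ = q * (c * d) := he
          _ = _ := by rw [← h]; ring
      exact Nat.eq_of_mul_eq_mul_left ha0 this
    have hbd : b ≠ d := by
      intro h
      apply t1
      refine ⟨?_, h⟩
      by_contra hne
      refine hsep a ha c hc hne p q hp1 (hpg.trans hg5) hq1 (hqg.trans hg5) ?_
      have : b * (p * a) = b * (q * c) := by
        calc b * (p * a) = p * (a * b) := by ring
          _ = q * (c * d) := he
          _ = _ := by rw [← h]; ring
      exact Nat.eq_of_mul_eq_mul_left hb0 this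
    have had : a ≠ d := by
      intro h
      apply t2
      refine ⟨h, ?_⟩
      by_contra hne
      refine hsep b hb c hc hne p q hp1 (hpg.trans hg5) hq1 (hqg.trans hg5) ?_
      have : a * (p * b) = a * (q * c) := by
        calc a * (p * b) = p * (a * b) := by ring
          _ = q * (c * d) := he
          _ = _ := by rw [← h]; ring
      exact Nat.eq_of_mul_eq_mul_left ha0 this
    have hbc : b ≠ c := by
      intro h
      apply t2
      refine ⟨?_, h⟩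
      by_contra hne
      refine hsep a ha d hd hne p q hp1 (hpg.trans hg5) hq1 (hqg.trans hg5) ?_
      have : b * (p * a) = b * (q * d) := by
        calc b * (p * a) = p * (a * b) := by ring
          _ = q * (c * d) := he
          _ = _ := by rw [← h]; ring
      exact Nat.eq_of_mul_eq_mul_left hb0 this
    rw [Finset.mem_union]; right
    rw [Finset.mem_biUnion]
    -- a solution whose first element is the largest
    have hmain : ∀ r1 r2 r3 r4, r1 ∈ R → r2 ∈ R → r3 ∈ R → r4 ∈ R → r1 ≠ r3 → r1 ≠ r4 →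
        r2 ≤ r1 → r3 ≤ r1 → r4 ≤ r1 → Rl4 g r1 r2 r3 r4 →
        ((r1, r2), (r3, r4)) ∈ N ∨ ((r1, r2), (r4, r3)) ∈ N := by
      intro r1 r2 r3 r4 h1 h2 h3 h4 h13 h14 h21 h31 h41 hR'
      have h5 := (hstr r1 h1 r3 h3 r4 h4 r2 h13 h14 h31 h41 hR').2
      rcases le_total (Nat.gcd r1 r4) (Nat.gcd r1 r3) with h6 | h6
      · left
        refine Finset.mem_filter.2 ⟨?_, h13, h14, h21, h31, h41, hR', ?_⟩
        · simp only [Finset.mem_product]; exact ⟨⟨h1, h2⟩, h3, h4⟩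
        · refine h5.trans (Nat.mul_le_mul_left _ ?_)
          simp only [sq]
          exact Nat.mul_le_mul_left _ h6
      · right
        refine Finset.mem_filter.2 ⟨?_, h14, h13, h21, h41, h31, hR'.swap2, ?_⟩
        · simp only [Finset.mem_product]; exact ⟨⟨h1, h2⟩, h4, h3⟩
        · refine h5.trans (Nat.mul_le_mul_left _ ?_)
          simp only [sq]
          exact Nat.mul_le_mul_right _ h6
    have hmax : (b ≤ a ∧ c ≤ a ∧ d ≤ a) ∨ (a ≤ b ∧ c ≤ b ∧ d ≤ b) ∨ (a ≤ c ∧ b ≤ c ∧ d ≤ c) ∨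
        (a ≤ d ∧ b ≤ d ∧ c ≤ d) := by omega
    rcases hmax with ⟨m1, m2, m3⟩ | ⟨m1, m2, m3⟩ | ⟨m1, m2, m3⟩ | ⟨m1, m2, m3⟩
    · rcases hmain a b c d ha hb hc hd hac had m1 m2 m3 hR with h | h
      · exact ⟨0, Finset.mem_univ _, Finset.mem_filter.2 ⟨hz, h⟩⟩
      · exact ⟨1, Finset.mem_univ _, Finset.mem_filter.2 ⟨hz, h⟩⟩
    · rcases hmain b a c d hb ha hc hd hbc hbd m1 m2 m3 hR.swap1 with h | h
      · exact ⟨2, Finset.mem_univ _, Finset.mem_filter.2 ⟨hz, h⟩⟩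
      · exact ⟨3, Finset.mem_univ _, Finset.mem_filter.2 ⟨hz, h⟩⟩
    · rcases hmain c d a b hc hd ha hb (Ne.symm hac) (Ne.symm hbc) m3 m1 m2 hR.symm with h | h
      · exact ⟨4, Finset.mem_univ _, Finset.mem_filter.2 ⟨hz, h⟩⟩
      · exact ⟨5, Finset.mem_univ _, Finset.mem_filter.2 ⟨hz, h⟩⟩
    · rcases hmain d c a b hd hc ha hb (Ne.symm had) (Ne.symm hbd) m3 m1 m2 hR.symm.swap1 with h | h
      · exact ⟨6, Finset.mem_univ _, Finset.mem_filter.2 ⟨hz, h⟩⟩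
      · exact ⟨7, Finset.mem_univ _, Finset.mem_filter.2 ⟨hz, h⟩⟩
  have hNi : ∀ i : Fin 8, (Q.filter fun z => σ i z ∈ N).card ≤ N.card := fun i =>
    Finset.card_le_card_of_injOn (σ i) (fun z hz => (Finset.mem_filter.1 hz).2)
      ((hσ i).injOn)
  have h1 : Q.card ≤ (Tr1 ∪ Tr2).card + 8 * N.card := by
    refine (Finset.card_le_card hcover).trans ((Finset.card_union_le _ _).trans ?_)
    refine Nat.add_le_add_left (Finset.card_biUnion_le.trans ?_) _
    calc ∑ i : Fin 8, (Q.filter fun z => σ i z ∈ N).card ≤ ∑ _i : Fin 8, N.card :=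
          Finset.sum_le_sum fun i _ => hNi i
      _ = 8 * N.card := by simp
  have h2 : (Tr1 ∪ Tr2).card ≤ 2 * R.card ^ 2 := by
    refine (Finset.card_union_le _ _).trans ?_
    have h3 : Tr1.card ≤ R.card ^ 2 := by
      refine Finset.card_image_le.trans (le_of_eq ?_)
      rw [Finset.card_product, sq]
    have h4 : Tr2.card ≤ R.card ^ 2 := by
      refine Finset.card_image_le.trans (le_of_eq ?_)
      rw [Finset.card_product, sq]
    omega
  omega

end Pool.Agent.Zk30.AR
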