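import Mathlib
import Pool.Agent.Zk30.DL.Sel

/-!
# Selection of a scale, with an arbitrary exponent of separation
-/

set_option autoImplicit false

namespace Pool.Agent.Zk30.AR

open Pool.Agent.TH551.SU Pool.Agent.TH539.MQ Pool.Agent.Zk30.FU Pool.Agent.Zk30.DL

theorem selE (E : ℕ) (n : ℕ) (L κ : ℝ) (hL : ∑ M ∈ Finset.Icc 1 n, (1 : ℝ) / M ≤ L) (hL1 : 1 ≤ L)
    (hκ : 1 ≤ κ) (i : ℕ) : ∀ (T : Finset ℚ) (H : ℕ) (A : Finset ℚ), 1 ≤ H → (∀ t ∈ T, t ≠ 0) →
      (T.card : ℝ) ≤ κ ^ i → (∀ x ∈ A, ∃ t ∈ T, x / t ∈ box H) → A.Nonempty → A.card ≤ n →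
      ∃ T' ⊆ T, T'.Nonempty ∧ ∃ H' M : ℕ, H ≤ H' ∧ 16 * H' ≤ (16 * H) ^ ((E + 1) ^ i) ∧ 1 ≤ M ∧
        (∀ t ∈ T', ∀ s ∈ T', t ≠ s → t / s ∉ box ((16 * H') ^ E)) ∧
        (∀ t ∈ T', M ≤ (A.filter fun x => x / t ∈ box H').card) ∧
        (A.card : ℝ) ≤ L ^ (i + 1) * κ * (T'.card * M) := by
  classical
  have hLκ : 1 ≤ L * κ := by nlinarith
  induction i with
  | zero =>
    intro T H A hH hT0 hTc hcov hA hAn
    rw [pow_zero] at hTc
    have hTc' : T.card ≤ 1 := by exact_mod_cast hTc
    obtain ⟨x0, hx0⟩ := hA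
    obtain ⟨t0, ht0, hxt⟩ := hcov x0 hx0
    have hT : T = {t0} := by
      obtain ⟨a, ha⟩ := Finset.card_eq_one.1 (le_antisymm hTc' (Finset.card_pos.2 ⟨t0, ht0⟩))
      rw [ha] at ht0 ⊢
      rw [Finset.mem_singleton.1 ht0]
    have hall : ∀ x ∈ A, x / t0 ∈ box H := by
      intro x hx
      obtain ⟨t, ht, h1⟩ := hcov x hx
      rw [hT, Finset.mem_singleton] at ht
      rwa [ht] at h1
    refine ⟨T, Finset.Subset.refl _, ⟨t0, ht0⟩, H, A.card, le_rfl, ?_,
      Finset.card_pos.2 ⟨x0, hx0⟩, ?_, ?_, ?_⟩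
    · simp
    · intro t ht s hs hts
      rw [hT, Finset.mem_singleton] at ht hs
      exact absurd (ht.trans hs.symm) hts
    · intro t ht
      rw [hT, Finset.mem_singleton] at ht
      rw [ht, Finset.filter_true_of_mem hall]
    · rw [hT, Finset.card_singleton, zero_add, pow_one, Nat.cast_one, one_mul]
      have : (0 : ℝ) ≤ A.card := Nat.cast_nonneg _
      nlinarith
  | succ i ih =>
    intro T H A hH hT0 hTc hcov hA hAn
    choose! col hcolT hcolb using hcov
    let f : ℚ → ℕ := fun t => (A.filter fun x => col x = t).card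
    have hsum : A.card = ∑ t ∈ T, f t := Finset.card_eq_sum_card_fiberwise hcolT
    obtain ⟨M, hM1, hM⟩ := level T f n L hL
      (fun t _ => (Finset.card_le_card (Finset.filter_subset _ _)).trans hAn)
      (by rw [← hsum]; exact hA.card_pos)
    rw [← hsum] at hM
    set T1 := T.filter fun t => M ≤ f t with hT1
    have hT1n : T1.Nonempty := by
      by_contra h1
      rw [Finset.not_nonempty_iff_eq_empty] at h1
      rw [h1, Finset.card_empty, Nat.cast_zero, mul_zero, mul_zero] at hM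
      have : (0 : ℝ) < A.card := by exact_mod_cast hA.card_pos
      linarith
    have hT10 : ∀ t ∈ T1, t ≠ 0 := fun t ht => hT0 t (Finset.mem_filter.1 ht).1
    have hR1 : 1 ≤ (16 * H) ^ E := Nat.one_le_pow _ _ (by omega)
    obtain ⟨Z, hZT, hZs, hZc⟩ := maxsep T1 hT10 ((16 * H) ^ E) hR1
    have hZn : Z.Nonempty := by
      obtain ⟨t, ht⟩ := hT1n
      obtain ⟨z, hz, _⟩ := hZc t ht
      exact ⟨z, hz⟩
    have hZT' : Z ⊆ T := hZT.trans (Finset.filter_subset _ _)
    have hM0 : (0 : ℝ) ≤ M := Nat.cast_nonneg _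
    by_cases hcase : (T1.card : ℝ) ≤ κ * Z.card
    · refine ⟨Z, hZT', hZn, H, M, le_rfl, ?_, hM1, hZs, ?_, ?_⟩
      · exact Nat.le_self_pow (by positivity) _
      · intro t ht
        have h1 := (Finset.mem_filter.1 (hZT ht)).2
        refine h1.trans (Finset.card_le_card ?_)
        intro x hx
        obtain ⟨h2, h3⟩ := Finset.mem_filter.1 hx
        refine Finset.mem_filter.2 ⟨h2, ?_⟩
        rw [← h3]
        exact hcolb x h2
      · calc (A.card : ℝ) ≤ L * (M * T1.card) := hM
          _ ≤ L * (M * (κ * Z.card)) := by gcongr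
          _ = L ^ 1 * κ * (Z.card * M) := by ring
          _ ≤ L ^ (i + 1 + 1) * κ * (Z.card * M) := by
              gcongr
              omega
    · push Not at hcase
      have hZκ : (Z.card : ℝ) ≤ κ ^ i := by
        have h1 : κ * Z.card ≤ κ ^ (i + 1) := by
          calc κ * Z.card ≤ T1.card := hcase.le
            _ ≤ T.card := by exact_mod_cast Finset.card_le_card (Finset.filter_subset _ _)
            _ ≤ κ ^ (i + 1) := hTc
        rw [pow_succ, mul_comm (κ ^ i)] at h1
        exact le_of_mul_le_mul_left h1 (by linarith)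
      set A2 := A.filter fun x => col x ∈ T1 with hA2
      have hA2c : M * T1.card ≤ A2.card := by
        have h1 : A2.card = ∑ t ∈ T1, (A2.filter fun x => col x = t).card :=
          Finset.card_eq_sum_card_fiberwise fun x hx => (Finset.mem_filter.1 hx).2
        rw [h1, mul_comm, ← smul_eq_mul, ← Finset.sum_const]
        refine Finset.sum_le_sum fun t ht => ?_
        refine (Finset.mem_filter.1 ht).2.trans (Finset.card_le_card ?_)
        intro x hx
        obtain ⟨h2, h3⟩ := Finset.mem_filter.1 hx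
        refine Finset.mem_filter.2 ⟨Finset.mem_filter.2 ⟨h2, ?_⟩, h3⟩
        rw [h3]; exact ht
      have hA2n : A2.Nonempty := by
        rw [← Finset.card_pos]
        have : 0 < M * T1.card := Nat.mul_pos hM1 hT1n.card_pos
        omega
      set H1 := H * ((16 * H) ^ E) with hH1
      have hH11 : 1 ≤ H1 := Nat.mul_pos hH hR1
      obtain ⟨T', hT'Z, hT'n, H', M', h1, h2, h3, h4, h5, h6⟩ := ih Z H1 A2 hH11
        (fun t ht => hT0 t (hZT' ht)) hZκ (by
          intro x hx
          obtain ⟨h2, h3⟩ := Finset.mem_filter.1 hx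
          obtain ⟨z, hz, h4⟩ := hZc (col x) h3
          refine ⟨z, hz, ?_⟩
          have h5 := box_mul (hcolb x h2) h4
          rwa [div_mul_div_cancel₀ (hT10 _ h3)] at h5) hA2n
        ((Finset.card_le_card (Finset.filter_subset _ _)).trans hAn)
      refine ⟨T', hT'Z.trans hZT', hT'n, H', M', ?_, ?_, h3, h4, ?_, ?_⟩
      · refine le_trans ?_ h1
        exact Nat.le_mul_of_pos_right H hR1
      · refine h2.trans (le_of_eq ?_)
        rw [pow_succ' (E + 1) i, pow_mul]
        congr 1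
        rw [hH1, pow_succ]
        ring
      · intro t ht
        refine (h5 t ht).trans (Finset.card_le_card ?_)
        exact Finset.filter_subset_filter _ (Finset.filter_subset _ _)
      · have hA2r : (M : ℝ) * T1.card ≤ A2.card := by exact_mod_cast hA2c
        calc (A.card : ℝ) ≤ L * (M * T1.card) := hM
          _ ≤ L * A2.card := by gcongr
          _ ≤ L * (L ^ (i + 1) * κ * (T'.card * M')) := by gcongr
          _ = _ := by ring

end Pool.Agent.Zk30.AR
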