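import Mathlib
import Pool.Agent.Zk30.AR.Core
import Pool.Agent.Zk30.AR.Sel
import Pool.Agent.Zk30.FU.Prod

/-!
# The multiplicative energy of a union of dilates
-/

set_option autoImplicit false

namespace Pool.Agent.Zk30.AR

open Pool.Agent.TH551.SU Pool.Agent.TH539.MQ Pool.Agent.Zk30.FU Pool.Agent.Zk30.DL
open scoped Pointwise

lemma box_pos {n : ℕ} {x : ℚ} (hx : x ∈ box n) (h0 : 0 < x) :
    ∃ m d : ℕ, 1 ≤ m ∧ m ≤ n ∧ 1 ≤ d ∧ d ≤ n ∧ x = (m : ℚ) / d := by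
  obtain ⟨a, d, h1, h2, h3, rfl⟩ := box_rep hx
  have hd : (0 : ℚ) < d := by exact_mod_cast h2
  have ha : 0 < a := by
    have h4 := (div_pos_iff_of_pos_right hd).1 h0
    exact_mod_cast h4
  refine ⟨a.toNat, d, by omega, ?_, h2, h3, ?_⟩
  · rw [abs_of_pos ha] at h1
    omega
  · have : ((a.toNat : ℕ) : ℚ) = (a : ℚ) := by
      have h5 : ((a.toNat : ℕ) : ℤ) = a := Int.toNat_of_nonneg ha.le
      exact_mod_cast h5
    rw [this]

/-- the multiplicative quadruples of two sets -/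
noncomputable def EE (X Y : Finset ℚ) : Finset ((ℚ × ℚ) × (ℚ × ℚ)) :=
  ((X ×ˢ Y) ×ˢ (X ×ˢ Y)).filter fun q => q.1.1 * q.1.2 = q.2.1 * q.2.2

lemma e1 {K1 ε1 : ℝ} (hK1 : 0 < K1) (hrr : ∀ R : ℕ, 1 ≤ R → ∀ X : Finset ℚ, (∀ x ∈ X, x ≠ 0) →
    ∑ q ∈ bx R, (rr X q : ℝ) ^ 2 ≤ K1 * ((R : ℝ) * X.card) ^ ε1 * (X.card : ℝ) ^ 2)
    (R : ℕ) (hR : 1 ≤ R) (X Y : Finset ℚ) (M : ℕ) (hX0 : ∀ x ∈ X, x ≠ 0) (hY0 : ∀ x ∈ Y, x ≠ 0)
    (hXM : X.card = M) (hYM : Y.card = M) (hXR : ∀ x ∈ X, ∀ x' ∈ X, x / x' ∈ box R) :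
    ((EE X Y).card : ℝ) ≤ K1 * ((R : ℝ) * M) ^ ε1 * (M : ℝ) ^ 2 := by
  classical
  have h1 : (EE X Y).card ≤ (QQ X Y R).card := by
    refine Finset.card_le_card ?_
    intro q hq
    unfold EE at hq
    obtain ⟨h2, h3⟩ := Finset.mem_filter.1 hq
    unfold QQ
    refine Finset.mem_filter.2 ⟨h2, h3, ?_⟩
    rw [Finset.mem_product, Finset.mem_product, Finset.mem_product] at h2
    exact hXR _ h2.1.1 _ h2.2.1
  have h2 : (((QQ X Y R).card : ℕ) : ℝ) ≤ ∑ q ∈ bx R, (rr X q : ℝ) * rr Y q := by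
    exact_mod_cast QQ_le X Y R hX0
  have h3 := Finset.sum_mul_sq_le_sq_mul_sq (bx R) (fun q => (rr X q : ℝ)) (fun q => (rr Y q : ℝ))
  have hx := hrr R hR X hX0
  have hy := hrr R hR Y hY0
  rw [hXM] at hx
  rw [hYM] at hy
  have h4 : (∑ q ∈ bx R, (rr X q : ℝ) * rr Y q) ^ 2 ≤
      (K1 * ((R : ℝ) * M) ^ ε1 * (M : ℝ) ^ 2) ^ 2 := by
    refine h3.trans ((mul_le_mul hx hy (Finset.sum_nonneg fun q _ => by positivity)
      (by positivity)).trans (le_of_eq (by ring)))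
  have h5 := le_of_sq_le_sq h4 (by positivity)
  calc _ ≤ (((QQ X Y R).card : ℕ) : ℝ) := by exact_mod_cast h1
    _ ≤ _ := h2
    _ ≤ _ := h5

lemma sum_sq_le (X Y S : Finset ℚ) :
    ∑ u ∈ S, ((X ×ˢ Y).filter fun p => p.1 * p.2 = u).card ^ 2 ≤ (EE X Y).card := by
  classical
  let f : ℚ → Finset (ℚ × ℚ) := fun u => (X ×ˢ Y).filter fun p => p.1 * p.2 = u
  have h1 : ∑ u ∈ S, (f u).card ^ 2 = (S.biUnion fun u => f u ×ˢ f u).card := by
    rw [Finset.card_biUnion]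
    · refine Finset.sum_congr rfl fun u _ => ?_
      rw [Finset.card_product, sq]
    · intro u _ u' _ huu
      refine Finset.disjoint_left.2 fun p hp hp' => ?_
      rw [Finset.mem_product] at hp hp'
      exact huu ((Finset.mem_filter.1 hp.1).2.symm.trans (Finset.mem_filter.1 hp'.1).2)
  rw [h1]
  refine Finset.card_le_card ?_
  intro q hq
  obtain ⟨u, _, hq⟩ := Finset.mem_biUnion.1 hq
  rw [Finset.mem_product] at hq
  obtain ⟨h2, h3⟩ := Finset.mem_filter.1 hq.1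
  obtain ⟨h4, h5⟩ := Finset.mem_filter.1 hq.2
  unfold EE
  exact Finset.mem_filter.2 ⟨Finset.mem_product.2 ⟨h2, h4⟩, h3.trans h5.symm⟩

lemma four (X Y Z W : Finset ℚ) :
    2 * (((X ×ˢ Z) ×ˢ (Y ×ˢ W)).filter fun v => v.1.1 * v.2.1 = v.1.2 * v.2.2).card ≤
      (EE X Y).card + (EE Z W).card := by
  classical
  let f : Finset ℚ → Finset ℚ → ℚ → Finset (ℚ × ℚ) := fun X Y u =>
    (X ×ˢ Y).filter fun p => p.1 * p.2 = u
  set V := ((X ×ˢ Z) ×ˢ (Y ×ˢ W)).filter fun v : (ℚ × ℚ) × (ℚ × ℚ) => v.1.1 * v.2.1 = v.1.2 * v.2.2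
    with hV
  have h1 : V.card = ∑ u ∈ X * Y, (V.filter fun v => v.1.1 * v.2.1 = u).card := by
    refine Finset.card_eq_sum_card_fiberwise fun v hv => ?_
    have hv := (Finset.mem_filter.1 (Finset.mem_coe.1 hv)).1
    rw [Finset.mem_product, Finset.mem_product, Finset.mem_product] at hv
    exact Finset.mul_mem_mul hv.1.1 hv.2.1
  have h2 : ∀ u ∈ X * Y, (V.filter fun v => v.1.1 * v.2.1 = u).card ≤
      (f X Y u).card * (f Z W u).card := by
    intro u _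
    rw [← Finset.card_product]
    refine Finset.card_le_card_of_injOn (fun v => ((v.1.1, v.2.1), (v.1.2, v.2.2))) ?_ ?_
    · intro v hv
      obtain ⟨h3, h4⟩ := Finset.mem_filter.1 (Finset.mem_coe.1 hv)
      obtain ⟨h5, h6⟩ := Finset.mem_filter.1 h3
      rw [Finset.mem_product, Finset.mem_product, Finset.mem_product] at h5
      refine Finset.mem_coe.2 (Finset.mem_product.2 ⟨?_, ?_⟩)
      · exact Finset.mem_filter.2 ⟨Finset.mem_product.2 ⟨h5.1.1, h5.2.1⟩, h4⟩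
      · exact Finset.mem_filter.2 ⟨Finset.mem_product.2 ⟨h5.1.2, h5.2.2⟩, h6.symm.trans h4⟩
    · rintro ⟨⟨a, b⟩, ⟨c, d⟩⟩ _ ⟨⟨a', b'⟩, ⟨c', d'⟩⟩ _ he
      simp only [Prod.mk.injEq] at he ⊢
      tauto
  calc 2 * V.card = ∑ u ∈ X * Y, 2 * (V.filter fun v => v.1.1 * v.2.1 = u).card := by
        rw [h1, Finset.mul_sum]
    _ ≤ ∑ u ∈ X * Y, ((f X Y u).card ^ 2 + (f Z W u).card ^ 2) := by
        refine Finset.sum_le_sum fun u hu => ?_
        have h3 := h2 u hu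
        have h4 : 2 * ((f X Y u).card * (f Z W u).card) ≤ (f X Y u).card ^ 2 + (f Z W u).card ^ 2 := by
          have := two_mul_le_add_sq (f X Y u).card (f Z W u).card
          calc 2 * ((f X Y u).card * (f Z W u).card) = 2 * (f X Y u).card * (f Z W u).card := by ring
            _ ≤ _ := this
        omega
    _ = ∑ u ∈ X * Y, (f X Y u).card ^ 2 + ∑ u ∈ X * Y, (f Z W u).card ^ 2 :=
        Finset.sum_add_distrib
    _ ≤ _ := Nat.add_le_add (sum_sq_le X Y _) (sum_sq_le Z W _)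

/-- the energy of a union of dilates -/
lemma enN (R : Finset ℕ) (h0 : ∀ r ∈ R, 0 < r) (h : ℕ) (B : ℕ → Finset ℚ)
    (hB : ∀ r ∈ R, ∀ x ∈ B r, 0 < x ∧ x / r ∈ box h) (e : ℝ)
    (he : ∀ r ∈ R, ∀ s ∈ R, ((EE (B r) (B s)).card : ℝ) ≤ e) :
    ∃ Q : Finset ((ℕ × ℕ) × (ℕ × ℕ)), (∀ z ∈ Q, z.1.1 ∈ R ∧ z.1.2 ∈ R ∧ z.2.1 ∈ R ∧ z.2.2 ∈ R ∧
      Rl4 (h ^ 4) z.1.1 z.1.2 z.2.1 z.2.2) ∧
      (Finset.mulEnergy (R.biUnion B) (R.biUnion B) : ℝ) ≤ Q.card * e := by
  classical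
  let Q : Finset ((ℕ × ℕ) × (ℕ × ℕ)) := ((R ×ˢ R) ×ˢ (R ×ˢ R)).filter fun z =>
    Rl4 (h ^ 4) z.1.1 z.1.2 z.2.1 z.2.2
  let G : (ℕ × ℕ) × (ℕ × ℕ) → Finset ((ℚ × ℚ) × (ℚ × ℚ)) := fun z =>
    (((B z.1.1) ×ˢ (B z.2.1)) ×ˢ ((B z.1.2) ×ˢ (B z.2.2))).filter fun v =>
      v.1.1 * v.2.1 = v.1.2 * v.2.2
  refine ⟨Q, ?_, ?_⟩
  · intro z hz
    obtain ⟨h1, h2⟩ := Finset.mem_filter.1 hz
    rw [Finset.mem_product, Finset.mem_product, Finset.mem_product] at h1
    exact ⟨h1.1.1, h1.1.2, h1.2.1, h1.2.2, h2⟩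
  · have h1 : Finset.mulEnergy (R.biUnion B) (R.biUnion B) ≤ (Q.biUnion G).card := by
      unfold Finset.mulEnergy
      refine Finset.card_le_card ?_
      rintro ⟨⟨x, z⟩, ⟨y, w⟩⟩ hv
      obtain ⟨h2, h3⟩ := Finset.mem_filter.1 hv
      simp only [Finset.mem_product, Finset.mem_biUnion] at h2
      obtain ⟨⟨⟨a, ha, hx⟩, ⟨c, hc, hz⟩⟩, ⟨⟨b, hb, hy⟩, ⟨d, hd, hw⟩⟩⟩ := h2
      simp only at h3
      refine Finset.mem_biUnion.2 ⟨((a, b), (c, d)), ?_, ?_⟩
      · refine Finset.mem_filter.2 ⟨?_, ?_⟩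
        · simp only [Finset.mem_product]; exact ⟨⟨ha, hb⟩, hc, hd⟩
        · simp only
          have ha0 : (0 : ℚ) < a := by exact_mod_cast h0 a ha
          have hb0 : (0 : ℚ) < b := by exact_mod_cast h0 b hb
          have hc0 : (0 : ℚ) < c := by exact_mod_cast h0 c hc
          have hd0 : (0 : ℚ) < d := by exact_mod_cast h0 d hd
          obtain ⟨x0, hx1⟩ := hB a ha x hx
          obtain ⟨y0, hy1⟩ := hB b hb y hy
          obtain ⟨z0, hz1⟩ := hB c hc z hz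
          obtain ⟨w0, hw1⟩ := hB d hd w hw
          obtain ⟨m1, n1, p1, p2, p3, p4, e1⟩ := box_pos (box_mul hx1 hy1)
            (mul_pos (div_pos x0 ha0) (div_pos y0 hb0))
          obtain ⟨m2, n2, q1, q2, q3, q4, e2⟩ := box_pos (box_mul hz1 hw1)
            (mul_pos (div_pos z0 hc0) (div_pos w0 hd0))
          have hn1 : (0 : ℚ) < n1 := by exact_mod_cast p3
          have hn2 : (0 : ℚ) < n2 := by exact_mod_cast q3
          have hh4 : h * h * (h * h) = h ^ 4 := by ring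
          refine ⟨m1 * n2, m2 * n1, Nat.mul_pos p1 q3, ?_, Nat.mul_pos q1 p3, ?_, ?_⟩
          · rw [← hh4]; exact Nat.mul_le_mul p2 q4
          · rw [← hh4]; exact Nat.mul_le_mul q2 p4
          · have e3 : (m1 : ℚ) * n2 * (a * b) = m2 * n1 * (c * d) := by
              have f1 : x * y = (m1 : ℚ) / n1 * (a * b) := by
                rw [← e1]; field_simp
              have f2 : z * w = (m2 : ℚ) / n2 * (c * d) := by
                rw [← e2]; field_simp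
              rw [f1, f2] at h3
              field_simp at h3
              linarith
            exact_mod_cast e3
      · refine Finset.mem_filter.2 ⟨?_, h3⟩
        simp only [Finset.mem_product]
        exact ⟨⟨hx, hz⟩, hy, hw⟩
    have h2 : ∀ z ∈ Q, ((G z).card : ℝ) ≤ e := by
      intro z hz
      obtain ⟨h3, -⟩ := Finset.mem_filter.1 hz
      rw [Finset.mem_product, Finset.mem_product, Finset.mem_product] at h3
      have h4 := four (B z.1.1) (B z.1.2) (B z.2.1) (B z.2.2)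
      have h5 := he _ h3.1.1 _ h3.1.2
      have h6 := he _ h3.2.1 _ h3.2.2
      have h7 : (2 : ℝ) * (G z).card ≤ (EE (B z.1.1) (B z.1.2)).card +
          (EE (B z.2.1) (B z.2.2)).card := by exact_mod_cast h4
      linarith
    calc (Finset.mulEnergy (R.biUnion B) (R.biUnion B) : ℝ) ≤ (Q.biUnion G).card := by
          exact_mod_cast h1
      _ ≤ ∑ z ∈ Q, ((G z).card : ℝ) := by exact_mod_cast Finset.card_biUnion_le
      _ ≤ ∑ _z ∈ Q, e := Finset.sum_le_sum h2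
      _ = Q.card * e := by rw [Finset.sum_const, nsmul_eq_mul]

/-- two elements of one affine class -/
lemma gcd_small {H : ℕ} (t0 : ℚ) (r s : ℕ) (hr : 0 < r) (hs : 0 < s)
    {lam mu lam' mu' : ℚ} (h1 : lam ∈ box H) (h2 : mu ∈ box H) (h1' : lam' ∈ box H)
    (h2' : mu' ∈ box H) (e : (r : ℚ) = lam * t0 + mu) (e' : (s : ℚ) = lam' * t0 + mu') :
    Nat.gcd r s ≤ 2 * H ^ 4 ∨ ∃ p q : ℕ, 1 ≤ p ∧ p ≤ H ^ 4 ∧ 1 ≤ q ∧ q ≤ H ^ 4 ∧
      p * r = q * s := by
  obtain ⟨a, b, ha, hb1, hbH, rfl⟩ := box_rep h1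
  obtain ⟨c, d, hc, hd1, hdH, rfl⟩ := box_rep h2
  obtain ⟨a', b', ha', hb1', hbH', rfl⟩ := box_rep h1'
  obtain ⟨c', d', hc', hd1', hdH', rfl⟩ := box_rep h2'
  have hb0 : (b : ℚ) ≠ 0 := by positivity
  have hd0 : (d : ℚ) ≠ 0 := by positivity
  have hb0' : (b' : ℚ) ≠ 0 := by positivity
  have hd0' : (d' : ℚ) ≠ 0 := by positivity
  set n1 : ℤ := a' * b * d * d' with hn1
  set n2 : ℤ := a * b' * d * d' with hn2
  set n3 : ℤ := a' * c * b * d' - a * c' * b' * d with hn3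
  have key : n1 * r - n2 * s = n3 := by
    have e3 : (n1 : ℚ) * r - n2 * s = n3 := by
      rw [hn1, hn2, hn3, e, e']
      push_cast
      field_simp
      ring
    exact_mod_cast e3
  have bH : (b : ℤ) ≤ H := by exact_mod_cast hbH
  have dH : (d : ℤ) ≤ H := by exact_mod_cast hdH
  have bH' : (b' : ℤ) ≤ H := by exact_mod_cast hbH'
  have dH' : (d' : ℤ) ≤ H := by exact_mod_cast hdH'
  have four_bound : ∀ x y z w : ℤ, |x| ≤ H → |y| ≤ H → |z| ≤ H → |w| ≤ H →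
      |x * y * z * w| ≤ (H : ℤ) ^ 4 := by
    intro x y z w hx hy hz hw
    rw [abs_mul, abs_mul, abs_mul]
    calc |x| * |y| * |z| * |w| ≤ H * H * H * H := by gcongr
      _ = (H : ℤ) ^ 4 := by ring
  have absb : |(b : ℤ)| ≤ H := by rw [Nat.abs_cast]; exact bH
  have absd : |(d : ℤ)| ≤ H := by rw [Nat.abs_cast]; exact dH
  have absb' : |(b' : ℤ)| ≤ H := by rw [Nat.abs_cast]; exact bH'
  have absd' : |(d' : ℤ)| ≤ H := by rw [Nat.abs_cast]; exact dH'
  have B1 : |n1| ≤ (H : ℤ) ^ 4 := four_bound _ _ _ _ ha' absb absd absd'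
  have B2 : |n2| ≤ (H : ℤ) ^ 4 := four_bound _ _ _ _ ha absb' absd absd'
  have B3 : |n3| ≤ 2 * (H : ℤ) ^ 4 := by
    have f1 := four_bound _ _ _ _ ha' hc absb absd'
    have f2 := four_bound _ _ _ _ ha hc' absb' absd
    calc |n3| ≤ |a' * c * b * d'| + |a * c' * b' * d| := abs_sub _ _
      _ ≤ _ := by linarith
  by_cases h3 : n3 = 0
  · right
    rw [h3, sub_eq_zero] at key
    have hrZ : (0 : ℤ) < r := by exact_mod_cast hr
    have hsZ : (0 : ℤ) < s := by exact_mod_cast hs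
    by_cases hn10 : n1 = 0
    · -- `λ = λ' = 0`
      have hn20 : n2 = 0 := by
        rw [hn10, zero_mul] at key
        rcases mul_eq_zero.1 key.symm with h | h
        · exact h
        · omega
      have hbz : (b : ℤ) ≠ 0 := by omega
      have hdz : (d : ℤ) ≠ 0 := by omega
      have hbz' : (b' : ℤ) ≠ 0 := by omega
      have hdz' : (d' : ℤ) ≠ 0 := by omega
      have ha'0 : a' = 0 := by
        by_contra h
        exact (mul_ne_zero (mul_ne_zero (mul_ne_zero h hbz) hdz) hdz') (hn1 ▸ hn10)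
      have ha0 : a = 0 := by
        by_contra h
        exact (mul_ne_zero (mul_ne_zero (mul_ne_zero h hbz') hdz) hdz') (hn2 ▸ hn20)
      rw [ha0, Int.cast_zero, zero_div, zero_mul, zero_add] at e
      rw [ha'0, Int.cast_zero, zero_div, zero_mul, zero_add] at e'
      -- `r = c / d`, `s = c' / d'`
      have f1 : (r : ℤ) * d = c := by
        have : (r : ℚ) * d = c := by rw [e]; field_simp
        exact_mod_cast this
      have f2 : (s : ℤ) * d' = c' := by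
        have : (s : ℚ) * d' = c' := by rw [e']; field_simp
        exact_mod_cast this
      have hd1Z : (1 : ℤ) ≤ d := by exact_mod_cast hd1
      have hd1Z' : (1 : ℤ) ≤ d' := by exact_mod_cast hd1'
      have g1 : r ≤ H := by
        have : (r : ℤ) ≤ H := by
          calc (r : ℤ) = r * 1 := (mul_one _).symm
            _ ≤ r * d := by gcongr
            _ = c := f1
            _ ≤ |c| := le_abs_self _
            _ ≤ H := hc
        exact_mod_cast this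
      have g2 : s ≤ H := by
        have : (s : ℤ) ≤ H := by
          calc (s : ℤ) = s * 1 := (mul_one _).symm
            _ ≤ s * d' := by gcongr
            _ = c' := f2
            _ ≤ |c'| := le_abs_self _
            _ ≤ H := hc'
        exact_mod_cast this
      have g3 : H ≤ H ^ 4 := Nat.le_self_pow (by norm_num) H
      exact ⟨s, r, hs, g2.trans g3, hr, g1.trans g3, mul_comm _ _⟩
    · have hn20 : n2 ≠ 0 := by
        intro h
        rw [h, zero_mul] at key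
        rcases mul_eq_zero.1 key with h | h
        · exact hn10 h
        · omega
      refine ⟨n1.natAbs, n2.natAbs, Int.natAbs_pos.2 hn10, ?_, Int.natAbs_pos.2 hn20, ?_, ?_⟩
      · have : ((n1.natAbs : ℕ) : ℤ) ≤ ((H ^ 4 : ℕ) : ℤ) := by
          rw [Int.natCast_natAbs]; push_cast; exact B1
        exact_mod_cast this
      · have : ((n2.natAbs : ℕ) : ℤ) ≤ ((H ^ 4 : ℕ) : ℤ) := by
          rw [Int.natCast_natAbs]; push_cast; exact B2
        exact_mod_cast this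
      · have := congrArg Int.natAbs key
        rwa [Int.natAbs_mul n1, Int.natAbs_mul n2, Int.natAbs_natCast, Int.natAbs_natCast] at this
  · left
    have hdvd : ((Nat.gcd r s : ℕ) : ℤ) ∣ n3 := by
      rw [← key]
      refine Int.dvd_sub ?_ ?_
      · exact Dvd.dvd.mul_left (Int.natCast_dvd_natCast.2 (Nat.gcd_dvd_left r s)) _
      · exact Dvd.dvd.mul_left (Int.natCast_dvd_natCast.2 (Nat.gcd_dvd_right r s)) _
    have h4 : ((Nat.gcd r s : ℕ) : ℤ) ≤ |n3| :=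
      Int.le_of_dvd (abs_pos.2 h3) ((dvd_abs _ _).2 hdvd)
    have h5 : ((Nat.gcd r s : ℕ) : ℤ) ≤ ((2 * H ^ 4 : ℕ) : ℤ) := by
      push_cast
      exact h4.trans B3
    exact_mod_cast h5

end Pool.Agent.Zk30.AR
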