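import Mathlib
import Pool.Agent.Zk30.AR.En
import Pool.Agent.Zk30.DL.Cover

/-!
# Sets covered by few affine classes
-/

set_option autoImplicit false

namespace Pool.Agent.Zk30.AR

open Pool.Agent.TH551.SU Pool.Agent.TH539.MQ Pool.Agent.Zk30.FU Pool.Agent.Zk30.DL
open scoped Pointwise

lemma rpow_div {Z W : ℝ} (a b : ℕ) (hb : b ≠ 0) (hZ : 0 ≤ Z) (hW : 0 ≤ W) (h : Z ^ a ≤ W ^ b) :
    Z ^ ((a : ℝ) / b) ≤ W := by
  have hbr : (b : ℝ) ≠ 0 := by exact_mod_cast hb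
  have h1 : Z ^ ((a : ℝ) / b) = (Z ^ a) ^ (1 / b : ℝ) := by
    rw [← Real.rpow_natCast, ← Real.rpow_mul hZ]
    congr 1
    ring
  have h2 : W = (W ^ b) ^ (1 / b : ℝ) := by
    rw [← Real.rpow_natCast, ← Real.rpow_mul hW, mul_one_div_cancel hbr, Real.rpow_one]
  rw [h1, h2]
  exact Real.rpow_le_rpow (by positivity) h (by positivity)

lemma numAR2 {n κ s k m K G CL C' : ℝ} (hn : 0 < n) (hκ : 1 ≤ κ) (hk : 0 < k) (hm : 0 < m)
    (hK : 0 < K) (hG : 0 ≤ G) (hCL : 1 ≤ CL) (hC' : 1 ≤ C') (hs : s = k * m)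
    (h1 : n ≤ CL * κ ^ 2 * s)
    (h2 : min (s ^ 2) (min (s * m ^ 3) ((s * m) ^ (4 / 3 : ℝ))) ≤ C' * κ ^ 2 * G)
    (h3 : k ^ 3 * m ^ 2 ≤ C' * κ * max k (K ^ 2) * G) :
    min (n ^ 2) (min (n * (n / K) ^ (3 / 2 : ℝ)) ((n * (n / K)) ^ (8 / 7 : ℝ))) ≤
      CL ^ 3 * C' * κ ^ 8 * G := by
  have hκ0 : 0 < κ := by linarith
  have hCL0 : 0 < CL := by linarith
  have hC0 : 0 < C' := by linarith
  have hs0 : 0 < s := by rw [hs]; positivity
  set P : ℝ := CL * κ ^ 2 with hP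
  have hκ2 : 1 ≤ κ ^ 2 := one_le_pow₀ hκ
  have hP1 : 1 ≤ P := by rw [hP]; nlinarith
  have hP0 : 0 < P := by linarith
  have hfin : P ^ 3 * (C' * κ ^ 2 * G) = CL ^ 3 * C' * κ ^ 8 * G := by rw [hP]; ring
  -- a bound for the square
  have hsq : s ^ 2 ≤ C' * κ ^ 2 * G → min (n ^ 2) (min (n * (n / K) ^ (3 / 2 : ℝ))
      ((n * (n / K)) ^ (8 / 7 : ℝ))) ≤ CL ^ 3 * C' * κ ^ 8 * G := by
    intro h4
    refine (min_le_left _ _).trans ?_
    calc n ^ 2 ≤ (P * s) ^ 2 := pow_le_pow_left₀ hn.le h1 2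
      _ = P ^ 2 * s ^ 2 := by ring
      _ ≤ P ^ 3 * (C' * κ ^ 2 * G) := by
          refine mul_le_mul (pow_le_pow_right₀ hP1 (by norm_num)) h4 (by positivity)
            (by positivity)
      _ = _ := hfin
  rcases le_total (K ^ 2) k with hc | hc
  · apply hsq
    rw [max_eq_left hc] at h3
    have h4 : k * (k ^ 2 * m ^ 2) ≤ k * (C' * κ * G) := by
      calc k * (k ^ 2 * m ^ 2) = k ^ 3 * m ^ 2 := by ring
        _ ≤ _ := h3
        _ = _ := by ring
    have h5 := le_of_mul_le_mul_left h4 hk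
    calc s ^ 2 = k ^ 2 * m ^ 2 := by rw [hs]; ring
      _ ≤ C' * κ * G := h5
      _ ≤ C' * κ ^ 2 * G := by
          gcongr
          exact le_self_pow₀ hκ (by norm_num)
  · rw [max_eq_right hc] at h3
    set W : ℝ := C' * κ ^ 2 * G with hW
    have hW0 : 0 ≤ W := by rw [hW]; positivity
    set M : ℝ := s / K with hM
    have hM0 : 0 < M := by positivity
    have hZ : s * M ^ 2 ≤ m * W := by
      have e1 : s * M ^ 2 = s ^ 3 / K ^ 2 := by rw [hM, div_pow]; ring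
      rw [e1, div_le_iff₀ (by positivity)]
      have h6 : s ^ 3 = m * (k ^ 3 * m ^ 2) := by rw [hs]; ring
      calc s ^ 3 = m * (k ^ 3 * m ^ 2) := h6
        _ ≤ m * (C' * κ * K ^ 2 * G) := by gcongr
        _ = m * (C' * κ * G) * K ^ 2 := by ring
        _ ≤ m * W * K ^ 2 := by
            rw [hW]
            gcongr
            exact le_self_pow₀ hκ (by norm_num)
    have hnK : n / K ≤ P * M := by
      rw [hM, ← mul_div_assoc]
      gcongr
    rcases le_total (s ^ 2) (min (s * m ^ 3) ((s * m) ^ (4 / 3 : ℝ))) with hd | hd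
    · rw [min_eq_left hd] at h2
      exact hsq h2
    · rw [min_eq_right hd] at h2
      rcases le_total (s * m ^ 3) ((s * m) ^ (4 / 3 : ℝ)) with he | he
      · rw [min_eq_left he] at h2
        refine ((min_le_right _ _).trans (min_le_left _ _)).trans ?_
        have hY : s * M ^ (3 / 2 : ℝ) ≤ W := by
          have h4 : (s * M ^ (3 / 2 : ℝ)) ^ 4 ≤ W ^ 4 := by
            have e2 : (M ^ (3 / 2 : ℝ)) ^ 4 = M ^ 6 := by
              rw [← Real.rpow_natCast, ← Real.rpow_mul hM0.le, ← Real.rpow_natCast]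
              norm_num
            calc (s * M ^ (3 / 2 : ℝ)) ^ 4 = s * (s * M ^ 2) ^ 3 := by
                  rw [mul_pow, e2]; ring
              _ ≤ s * (m * W) ^ 3 := by gcongr
              _ = (s * m ^ 3) * W ^ 3 := by ring
              _ ≤ W * W ^ 3 := by gcongr
              _ = W ^ 4 := by ring
          exact le_of_pow_le_pow_left₀ (by norm_num) hW0 h4
        calc n * (n / K) ^ (3 / 2 : ℝ) ≤ (P * s) * (P * M) ^ (3 / 2 : ℝ) := by gcongr
          _ = P * P ^ (3 / 2 : ℝ) * (s * M ^ (3 / 2 : ℝ)) := by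
              rw [Real.mul_rpow hP0.le hM0.le]; ring
          _ ≤ P * P ^ 2 * W := by
              gcongr
              calc P ^ (3 / 2 : ℝ) ≤ P ^ (2 : ℝ) :=
                    Real.rpow_le_rpow_of_exponent_le hP1 (by norm_num)
                _ = P ^ 2 := by rw [← Real.rpow_natCast]; norm_num
          _ = P ^ 3 * W := by ring
          _ = _ := hfin
      · rw [min_eq_right he] at h2
        refine ((min_le_right _ _).trans (min_le_right _ _)).trans ?_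
        have h4 : (s * m) ^ 4 ≤ W ^ 3 := by
          calc (s * m) ^ 4 = ((s * m) ^ (4 / 3 : ℝ)) ^ 3 := by
                rw [← Real.rpow_natCast, ← Real.rpow_natCast, ← Real.rpow_mul (by positivity)]
                norm_num
            _ ≤ W ^ 3 := by gcongr
        have hY : (s * M) ^ (8 / 7 : ℝ) ≤ W := by
          have h5 := rpow_div 8 7 (by norm_num) (by positivity : 0 ≤ s * M) hW0 (by
            calc (s * M) ^ 8 = s ^ 4 * (s * M ^ 2) ^ 4 := by ring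
              _ ≤ s ^ 4 * (m * W) ^ 4 := by gcongr
              _ = (s * m) ^ 4 * W ^ 4 := by ring
              _ ≤ W ^ 3 * W ^ 4 := by gcongr
              _ = W ^ 7 := by ring)
          exact_mod_cast h5
        calc (n * (n / K)) ^ (8 / 7 : ℝ) ≤ (P ^ 2 * (s * M)) ^ (8 / 7 : ℝ) := by
              refine Real.rpow_le_rpow (by positivity) ?_ (by norm_num)
              calc n * (n / K) ≤ (P * s) * (P * M) := by gcongr
                _ = _ := by ring
          _ = (P ^ 2) ^ (8 / 7 : ℝ) * (s * M) ^ (8 / 7 : ℝ) :=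
              Real.mul_rpow (by positivity) (by positivity)
          _ ≤ P ^ 3 * W := by
              gcongr
              calc (P ^ 2) ^ (8 / 7 : ℝ) = P ^ (16 / 7 : ℝ) := by
                    rw [← Real.rpow_natCast, ← Real.rpow_mul hP0.le]
                    norm_num
                _ ≤ P ^ (3 : ℝ) := Real.rpow_le_rpow_of_exponent_le hP1 (by norm_num)
                _ = P ^ 3 := by rw [← Real.rpow_natCast]; norm_num
          _ = _ := hfin

theorem ar2 (D : ℕ) (ε : ℝ) (hε : 0 < ε) : ∃ c : ℝ, 0 < c ∧ ∀ A : Finset ℕ, A.Nonempty →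
    (∀ a ∈ A, 0 < a) → ∀ H : ℕ, 1 ≤ H → H ≤ (3 * A.card) ^ D → ∀ (T0 : Finset ℚ) (col : ℕ → ℚ),
    (∀ a ∈ A, col a ∈ T0) → (∀ a ∈ A, ∀ b ∈ A, a ≠ b → col a = col b →
      Nat.gcd a b ≤ H ∨ (a : ℚ) / b ∈ box H) →
    c * (A.card : ℝ) ^ (-ε) * min ((A.card : ℝ) ^ 2)
      (min (A.card * ((A.card : ℝ) / T0.card) ^ (3 / 2 : ℝ))
        ((A.card * ((A.card : ℝ) / T0.card)) ^ (8 / 7 : ℝ))) ≤
      max (((A.image (Nat.cast : ℕ → ℚ)) + (A.image (Nat.cast : ℕ → ℚ))).card : ℝ)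
        (((A.image (Nat.cast : ℕ → ℚ)) * (A.image (Nat.cast : ℕ → ℚ))).card : ℝ) := by
  classical
  set ε0 : ℝ := min (ε / 20) (1 / 4) with hε0
  have hε00 : 0 < ε0 := lt_min (by positivity) (by norm_num)
  have hε0ε : ε0 ≤ ε / 20 := min_le_left _ _
  have hε04 : ε0 ≤ 1 / 4 := min_le_right _ _
  obtain ⟨i, hi0⟩ := exists_nat_ge (1 / ε0)
  have hi1 : 1 ≤ ε0 * i := by
    rw [div_le_iff₀ hε00] at hi0
    linarith
  obtain ⟨CL, hCL1, hCL⟩ := log_pow_bound (i + 1) ε0 hε00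
  set w : ℕ := (20 + 1) ^ i with hw
  set eh : ℕ := D * w with heh
  set Ch : ℝ := (16 * 3 ^ D) ^ w with hCh
  have hCh1 : 1 ≤ Ch := one_le_pow₀ (by
    have : (1 : ℝ) ≤ 3 ^ D := one_le_pow₀ (by norm_num)
    linarith)
  set ε1 : ℝ := ε0 / (2 * eh + 1) with hε1
  have hε10 : 0 < ε1 := by positivity
  obtain ⟨K1, hK1, hrr⟩ := rr_bound ε1 hε10
  set C1 : ℝ := K1 * (Ch ^ 2) ^ ε1 with hC1
  have hC10 : 0 < C1 := by rw [hC1]; positivity
  obtain ⟨j, hj⟩ := pow_unbounded_of_one_lt (Ch * (CL ^ 2) ^ eh) (by norm_num : (1 : ℝ) < 2)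
  obtain ⟨c1, hc10, -, hmain⟩ := cover4 (2 * eh + j) (2 * ε0) (by positivity)
  set C' : ℝ := 1 + 1 / c1 + 18 * C1 with hC'
  have hC'1 : 1 ≤ C' := by
    have : 0 < 1 / c1 := by positivity
    rw [hC']; linarith
  have hC'0 : 0 < C' := by linarith
  refine ⟨1 / (CL ^ 3 * C'), by positivity, fun A hA hA0 H hH hHA T0 col hcolT hcolg => ?_⟩
  set n : ℝ := (A.card : ℝ) with hn
  have hn1 : 1 ≤ n := by rw [hn]; exact_mod_cast hA.card_pos
  have hn0 : 0 < n := by linarith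
  set κ : ℝ := n ^ ε0 with hκ
  have hκ1 : 1 ≤ κ := Real.one_le_rpow hn1 hε00.le
  have hκ0 : 0 < κ := by linarith
  have hlog : 0 ≤ Real.log n := Real.log_nonneg hn1
  set Aq : Finset ℚ := A.image (Nat.cast : ℕ → ℚ) with hAq
  have hcinj : Function.Injective (Nat.cast : ℕ → ℚ) := Nat.cast_injective
  have hAqc : Aq.card = A.card := Finset.card_image_of_injective _ hcinj
  have hAqn : Aq.Nonempty := hA.image _
  have hAq0 : ∀ x ∈ Aq, 0 < x := by
    intro x hx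
    obtain ⟨a, ha, rfl⟩ := Finset.mem_image.1 hx
    exact_mod_cast hA0 a ha
  have hAqκ : (Aq.card : ℝ) ≤ κ ^ i := by
    rw [hAqc]
    calc (A.card : ℝ) = n ^ (1 : ℝ) := by rw [Real.rpow_one]
      _ ≤ n ^ (ε0 * i) := Real.rpow_le_rpow_of_exponent_le hn1 hi1
      _ = κ ^ i := by rw [hκ, ← Real.rpow_natCast, ← Real.rpow_mul hn0.le]
  obtain ⟨T', hT'T, hT'n, H', M, hHH', hH'b, hM1, hsepT, hTM, hAc⟩ :=
    selE 20 A.card (1 + Real.log n) κ (harm A.card) (by linarith) hκ1 i Aq H Aq hH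
      (fun t ht => (hAq0 t ht).ne') hAqκ (fun x hx => ⟨x, hx, by
        rw [div_self (hAq0 x hx).ne']
        exact mem_box (by simpa using (by exact_mod_cast hH : (1 : ℝ) ≤ H))
          (by simpa using (by exact_mod_cast hH : (1 : ℝ) ≤ H))⟩) hAqn hAqc.le
  rw [hAqc] at hAc
  have hH'1 : 1 ≤ H' := hH.trans hHH'
  set h : ℕ := 16 * H' with hh
  have hh1 : 1 ≤ h := by omega
  set g : ℕ := h ^ 4 with hg
  have hg1 : 1 ≤ g := Nat.one_le_pow _ _ hh1
  have hg5 : g ^ 5 = h ^ 20 := by rw [hg, ← pow_mul]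
  -- the representatives
  set R : Finset ℕ := A.filter fun r => (r : ℚ) ∈ T' with hR
  have hRT : R.image (Nat.cast : ℕ → ℚ) = T' := by
    ext t
    rw [Finset.mem_image]
    constructor
    · rintro ⟨r, hr, rfl⟩
      exact (Finset.mem_filter.1 hr).2
    · intro ht
      obtain ⟨a, ha, rfl⟩ := Finset.mem_image.1 (hT'T ht)
      exact ⟨a, Finset.mem_filter.2 ⟨ha, ht⟩, rfl⟩
  have hRc : R.card = T'.card := by
    rw [← hRT, Finset.card_image_of_injective _ hcinj]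
  have hRA : R ⊆ A := Finset.filter_subset _ _
  have hR0 : ∀ r ∈ R, 0 < r := fun r hr => hA0 r (hRA hr)
  have hRT' : ∀ r ∈ R, (r : ℚ) ∈ T' := fun r hr => (Finset.mem_filter.1 hr).2
  choose! B' hB'sub hB'M using fun t ht => Finset.exists_subset_card_eq (hTM t ht)
  set B : ℕ → Finset ℚ := fun r => B' (r : ℚ) with hB
  have hBA : ∀ r ∈ R, B r ⊆ Aq := fun r hr =>
    (hB'sub _ (hRT' r hr)).trans (Finset.filter_subset _ _)
  have hBM : ∀ r ∈ R, (B r).card = M := fun r hr => hB'M _ (hRT' r hr)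
  have hBh' : ∀ r ∈ R, ∀ x ∈ B r, 0 < x ∧ x / r ∈ box H' := by
    intro r hr x hx
    obtain ⟨h1, h2⟩ := Finset.mem_filter.1 (hB'sub _ (hRT' r hr) hx)
    exact ⟨hAq0 x h1, h2⟩
  have hBh : ∀ r ∈ R, ∀ x ∈ B r, 0 < x ∧ x / r ∈ box h := fun r hr x hx =>
    ⟨(hBh' r hr x hx).1, box_mono (by omega) (hBh' r hr x hx).2⟩
  have hsep : ∀ r ∈ R, ∀ s ∈ R, r ≠ s → ∀ p q : ℕ, 1 ≤ p → p ≤ g ^ 5 → 1 ≤ q → q ≤ g ^ 5 →
      p * r ≠ q * s := by
    intro r hr s hs hrs p q hp1 hpg hq1 hqg he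
    refine hsepT _ (hRT' r hr) _ (hRT' s hs) (fun h1 => hrs (hcinj h1)) ?_
    rw [← hg5]
    have hs0 : (s : ℚ) ≠ 0 := by
      have := hR0 s hs
      positivity
    have hp0 : (p : ℚ) ≠ 0 := by positivity
    have e1 : (r : ℚ) / s = ((q : ℤ) : ℚ) / p := by
      rw [div_eq_div_iff hs0 hp0]
      have : (p : ℚ) * r = q * s := by exact_mod_cast he
      push_cast
      linarith
    rw [e1]
    refine mem_box' _ _ ?_ hp1 hpg
    rw [Nat.abs_cast]
    exact_mod_cast hqg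
  have hHh : H ≤ h := by omega
  have hhg : h ≤ g := Nat.le_self_pow (by norm_num) h
  have hgcd : ∀ r ∈ R, ∀ s ∈ R, r ≠ s → col r = col s → Nat.gcd r s ≤ g := by
    intro r hr s hs hrs hc
    rcases hcolg r (hRA hr) s (hRA hs) hrs hc with h1 | h1
    · exact h1.trans (hHh.trans hhg)
    · exfalso
      refine hsepT _ (hRT' r hr) _ (hRT' s hs) (fun h1 => hrs (hcinj h1)) ?_
      exact box_mono (hHh.trans (Nat.le_self_pow (by norm_num) h)) h1
  -- heights
  have hhr : (h : ℝ) ≤ Ch * n ^ eh := by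
    have h1 : h ≤ (16 * (3 * A.card) ^ D) ^ w := by
      calc h ≤ (16 * H) ^ w := hH'b
        _ ≤ (16 * (3 * A.card) ^ D) ^ w := Nat.pow_le_pow_left (Nat.mul_le_mul_left _ hHA) _
    calc (h : ℝ) ≤ (((16 * (3 * A.card) ^ D) ^ w : ℕ) : ℝ) := by exact_mod_cast h1
      _ = (16 * (3 * n) ^ D) ^ w := by rw [hn]; push_cast; rfl
      _ = Ch * n ^ eh := by
          rw [hCh, heh, mul_pow 3 n D, pow_mul, ← mul_pow]
          congr 1
          ring
  have hMn : (M : ℝ) ≤ n := by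
    obtain ⟨t, ht⟩ := hT'n
    rw [hn, ← hAqc]
    exact_mod_cast (hTM t ht).trans (Finset.card_le_card (Finset.filter_subset _ _))
  have hEb : K1 * (((h * h : ℕ) : ℝ) * M) ^ ε1 * (M : ℝ) ^ 2 ≤ C1 * κ * (M : ℝ) ^ 2 := by
    have h1 : (((h * h : ℕ) : ℝ) * M) ≤ Ch ^ 2 * n ^ (2 * eh + 1) := by
      push_cast
      calc (h : ℝ) * h * M ≤ (Ch * n ^ eh) * (Ch * n ^ eh) * n := by gcongr
        _ = _ := by ring
    have h2 : (((h * h : ℕ) : ℝ) * M) ^ ε1 ≤ (Ch ^ 2) ^ ε1 * κ := by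
      calc (((h * h : ℕ) : ℝ) * M) ^ ε1 ≤ (Ch ^ 2 * n ^ (2 * eh + 1)) ^ ε1 :=
            Real.rpow_le_rpow (by positivity) h1 hε10.le
        _ = (Ch ^ 2) ^ ε1 * (n ^ (2 * eh + 1)) ^ ε1 :=
            Real.mul_rpow (by positivity) (by positivity)
        _ = (Ch ^ 2) ^ ε1 * κ := by
            congr 1
            rw [← Real.rpow_natCast, ← Real.rpow_mul hn0.le, hκ]
            congr 1
            rw [hε1]
            push_cast
            field_simp
    calc K1 * (((h * h : ℕ) : ℝ) * M) ^ ε1 * (M : ℝ) ^ 2 ≤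
          K1 * ((Ch ^ 2) ^ ε1 * κ) * (M : ℝ) ^ 2 := by gcongr
      _ = _ := by rw [hC1]; ring
  -- the energy
  obtain ⟨Q, hQ, hen⟩ := enN R hR0 h B hBh (C1 * κ * (M : ℝ) ^ 2) (by
    intro r hr s hs
    refine (e1 hK1 hrr (h * h) (Nat.mul_pos hh1 hh1) (B r) (B s) M
      (fun x hx => (hBh r hr x hx).1.ne') (fun x hx => (hBh s hs x hx).1.ne') (hBM r hr)
      (hBM s hs) ?_).trans hEb
    intro x hx x' hx'
    obtain ⟨hx0, h1⟩ := hBh r hr x hx
    obtain ⟨hx0', h2⟩ := hBh r hr x' hx'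
    have hr0 : (0 : ℚ) < r := by exact_mod_cast hR0 r hr
    have h3 := box_mul h1 (inv_mem_box h2 (div_pos hx0' hr0).ne')
    rwa [inv_div, div_mul_div_cancel₀ hr0.ne'] at h3)
  have hQc := core4 g hg1 R hR0 hsep T0 col (fun r hr => hcolT r (hRA hr)) hgcd Q hQ
  set S := R.biUnion B with hS
  have hdisj : ∀ r ∈ R, ∀ s ∈ R, r ≠ s → Disjoint (B r) (B s) := by
    intro r hr s hs hrs
    refine Finset.disjoint_left.2 fun x hx hx' => ?_
    obtain ⟨hx0, h1⟩ := hBh r hr x hx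
    obtain ⟨-, h2⟩ := hBh s hs x hx'
    have hr0 : (0 : ℚ) < r := by exact_mod_cast hR0 r hr
    have hs0 : (0 : ℚ) < s := by exact_mod_cast hR0 s hs
    refine hsepT _ (hRT' r hr) _ (hRT' s hs) (fun h1 => hrs (hcinj h1)) ?_
    have h3 := box_mul h2 (inv_mem_box h1 (div_pos hx0 hr0).ne')
    have h4 : x / s * (x / r)⁻¹ = (r : ℚ) / s := by field_simp
    rw [h4] at h3
    refine box_mono ?_ h3
    rw [← sq]
    exact Nat.pow_le_pow_right hh1 (by norm_num)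
  have hSc : S.card = R.card * M := by
    rw [hS, Finset.card_biUnion hdisj, Finset.sum_congr rfl fun r hr => hBM r hr,
      Finset.sum_const, smul_eq_mul]
  have hSA : S ⊆ Aq := by
    intro x hx
    obtain ⟨r, hr, hx⟩ := Finset.mem_biUnion.1 hx
    exact hBA r hr hx
  have hRpos : 0 < R.card := by rw [hRc]; exact hT'n.card_pos
  have hSpos : 0 < S.card := by rw [hSc]; exact Nat.mul_pos hRpos hM1
  have hSn : S.Nonempty := Finset.card_pos.1 hSpos
  set k : ℝ := (R.card : ℝ) with hk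
  set m : ℝ := (M : ℝ) with hm
  set K : ℝ := (T0.card : ℝ) with hK
  set s : ℝ := (S.card : ℝ) with hs
  have hk0 : 0 < k := by rw [hk]; exact_mod_cast hRpos
  have hm0 : 0 < m := by rw [hm]; exact_mod_cast hM1
  have hs0 : 0 < s := by rw [hs]; exact_mod_cast hSpos
  have hs1 : 1 ≤ s := by rw [hs]; exact_mod_cast hSpos
  have hskm : s = k * m := by rw [hs, hSc, hk, hm]; push_cast; rfl
  have hK0 : 0 < K := by
    obtain ⟨a, ha⟩ := hA
    rw [hK]
    exact_mod_cast Finset.card_pos.2 ⟨_, hcolT a ha⟩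
  have hsn : s ≤ n := by
    rw [hs, hn, ← hAqc]
    exact_mod_cast Finset.card_le_card hSA
  set G : ℝ := max ((Aq + Aq).card : ℝ) ((Aq * Aq).card : ℝ) with hG
  have hG0 : 0 ≤ G := le_max_of_le_left (Nat.cast_nonneg _)
  have hGadd : ((S + S).card : ℝ) ≤ G := by
    refine le_trans ?_ (le_max_left _ _)
    exact_mod_cast Finset.card_le_card (Finset.add_subset_add hSA hSA)
  have hGmul : ((S * S).card : ℝ) ≤ G := by
    refine le_trans ?_ (le_max_right _ _)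
    exact_mod_cast Finset.card_le_card (Finset.mul_subset_mul hSA hSA)
  have hsize : n ≤ CL * κ ^ 2 * s := by
    calc n ≤ (1 + Real.log n) ^ (i + 1) * κ * (T'.card * M) := hAc
      _ ≤ (CL * n ^ ε0) * κ * (T'.card * M) := by
          gcongr
          exact hCL n hn1
      _ = _ := by rw [← hκ, hskm, hk, hRc]; ring
  -- the products
  have hprod : k ^ 3 * m ^ 2 ≤ C' * κ * max k (K ^ 2) * G := by
    have h1 := Finset.le_card_mul_mul_mulEnergy S S
    have h2 : s ^ 2 * s ^ 2 ≤ (S * S).card * (Finset.mulEnergy S S : ℝ) := by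
      rw [hs]; exact_mod_cast h1
    have h3 : (Q.card : ℝ) ≤ 2 * k ^ 2 + 16 * (K ^ 2 * k) := by
      rw [hk, hK]; exact_mod_cast hQc
    have h4 : (2 * k ^ 2 + 16 * (K ^ 2 * k)) ≤ 18 * (k * max k (K ^ 2)) := by
      have e1 : k ≤ max k (K ^ 2) := le_max_left _ _
      have e2 : K ^ 2 ≤ max k (K ^ 2) := le_max_right _ _
      nlinarith
    have h5 : s ^ 2 * s ^ 2 ≤ G * ((18 * (k * max k (K ^ 2))) * (C1 * κ * m ^ 2)) := by
      calc s ^ 2 * s ^ 2 ≤ (S * S).card * (Finset.mulEnergy S S : ℝ) := h2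
        _ ≤ G * (Q.card * (C1 * κ * m ^ 2)) := by gcongr
        _ ≤ G * ((18 * (k * max k (K ^ 2))) * (C1 * κ * m ^ 2)) := by
            gcongr
            exact h3.trans h4
    have h6 : (k * m ^ 2) * (k ^ 3 * m ^ 2) ≤ (k * m ^ 2) * (18 * C1 * κ * max k (K ^ 2) * G) := by
      calc (k * m ^ 2) * (k ^ 3 * m ^ 2) = s ^ 2 * s ^ 2 := by rw [hskm]; ring
        _ ≤ _ := h5
        _ = _ := by ring
    have h7 := le_of_mul_le_mul_left h6 (by positivity)
    refine h7.trans ?_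
    have h8 : 18 * C1 ≤ C' := by
      rw [hC']
      have : 0 < 1 / c1 := by positivity
      linarith
    gcongr
  -- the sums
  have hκn : κ ^ 2 = n ^ (2 * ε0) := by
    rw [hκ, ← Real.rpow_natCast, ← Real.rpow_mul hn0.le]
    congr 1
    push_cast
    ring
  have hsq : n ≤ CL ^ 2 * s ^ 2 := by
    have h1 : n ^ (1 / 2 : ℝ) ≤ CL * s := by
      have h2 : n ^ (1 / 2 : ℝ) * κ ^ 2 ≤ n := by
        rw [hκn, ← Real.rpow_add hn0]
        calc n ^ (1 / 2 + 2 * ε0) ≤ n ^ (1 : ℝ) :=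
              Real.rpow_le_rpow_of_exponent_le hn1 (by linarith)
          _ = n := Real.rpow_one n
      have h3 : κ ^ 2 * n ^ (1 / 2 : ℝ) ≤ κ ^ 2 * (CL * s) := by
        calc κ ^ 2 * n ^ (1 / 2 : ℝ) = n ^ (1 / 2 : ℝ) * κ ^ 2 := mul_comm _ _
          _ ≤ n := h2
          _ ≤ CL * κ ^ 2 * s := hsize
          _ = _ := by ring
      exact le_of_mul_le_mul_left h3 (by positivity)
    calc n = (n ^ (1 / 2 : ℝ)) ^ 2 := by
          rw [← Real.rpow_natCast, ← Real.rpow_mul hn0.le]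
          norm_num
      _ ≤ (CL * s) ^ 2 := pow_le_pow_left₀ (by positivity) h1 2
      _ = _ := by ring
  have hH'S : H' ≤ (2 * S.card) ^ (2 * eh + j) := by
    have h1 : (H' : ℝ) ≤ ((2 * s) ^ (2 * eh + j)) := by
      calc (H' : ℝ) ≤ h := by rw [hh]; push_cast; linarith [(Nat.cast_nonneg H' : (0 : ℝ) ≤ H')]
        _ ≤ Ch * n ^ eh := hhr
        _ ≤ Ch * (CL ^ 2 * s ^ 2) ^ eh := by gcongr
        _ = (Ch * (CL ^ 2) ^ eh) * s ^ (2 * eh) := by rw [mul_pow, ← pow_mul s 2 eh]; ring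
        _ ≤ 2 ^ j * (2 * s) ^ (2 * eh) := by
            gcongr
            linarith
        _ ≤ (2 * s) ^ j * (2 * s) ^ (2 * eh) := by
            gcongr
            linarith
        _ = _ := by rw [← pow_add, add_comm j]
    rw [hs] at h1
    exact_mod_cast h1
  have hS0 : ∀ x ∈ S, x ≠ 0 := fun x hx => (hAq0 x (hSA hx)).ne'
  have hsum : min (s ^ 2) (min (s * m ^ 3) ((s * m) ^ (4 / 3 : ℝ))) ≤ C' * κ ^ 2 * G := by
    have hsm : s / (T'.card : ℝ) = m := by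
      rw [← hRc, hskm, ← hk]
      field_simp
    have hc1C : 1 / c1 ≤ C' := by rw [hC']; linarith
    have h1 := hmain S T' 0 H' hSn hS0 (fun h0 => hS0 0 h0 rfl) hH'1 hH'S (by
      intro x hx
      obtain ⟨r, hr, hx⟩ := Finset.mem_biUnion.1 hx
      have hr0 : (r : ℚ) ≠ 0 := (hAq0 r (hT'T (hRT' r hr))).ne'
      refine ⟨r, hRT' r hr, x / r, (hBh' r hr x hx).2, ?_⟩
      rw [zero_add, div_mul_cancel₀ _ hr0])
    rw [← hs, hsm] at h1
    have h2 : s ^ (-(2 * ε0)) * κ ^ 2 ≥ 1 := by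
      have h3 : n ^ (-(2 * ε0)) ≤ s ^ (-(2 * ε0)) :=
        Real.rpow_le_rpow_of_nonpos hs0 hsn (by linarith)
      calc (1 : ℝ) = n ^ (-(2 * ε0)) * κ ^ 2 := by
            rw [hκn, ← Real.rpow_add hn0]
            rw [show -(2 * ε0) + 2 * ε0 = 0 by ring, Real.rpow_zero]
        _ ≤ s ^ (-(2 * ε0)) * κ ^ 2 := by gcongr
    have hmin0 : 0 ≤ min (s ^ 2) (min (s * m ^ 3) ((s * m) ^ (4 / 3 : ℝ))) :=
      le_min (by positivity) (le_min (by positivity) (by positivity))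
    have h4 : max ((S + S).card : ℝ) ((S * S).card : ℝ) ≤ G := max_le hGadd hGmul
    set y : ℝ := min (s ^ 2) (min (s * m ^ 3) ((s * m) ^ (4 / 3 : ℝ))) with hy
    have h5 : c1 * y ≤ κ ^ 2 * G := by
      calc c1 * y = (c1 * y) * 1 := (mul_one _).symm
        _ ≤ (c1 * y) * (s ^ (-(2 * ε0)) * κ ^ 2) := by gcongr
        _ = κ ^ 2 * (c1 * s ^ (-(2 * ε0)) * y) := by ring
        _ ≤ κ ^ 2 * G := by
            gcongr
            exact h1.trans h4
    calc y = 1 / c1 * (c1 * y) := by field_simp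
      _ ≤ 1 / c1 * (κ ^ 2 * G) := by gcongr
      _ ≤ C' * (κ ^ 2 * G) := by gcongr
      _ = _ := by ring
  have hnum := numAR2 (n := n) (κ := κ) (s := s) (k := k) (m := m) (K := K) (G := G)
    (CL := CL) (C' := C') hn0 hκ1 hk0 hm0 hK0 hG0 hCL1 hC'1 hskm hsize hsum hprod
  have hκ8 : n ^ (-ε) * κ ^ 8 ≤ 1 := by
    rw [hκ, ← Real.rpow_natCast, ← Real.rpow_mul hn0.le, ← Real.rpow_add hn0]
    calc n ^ (-ε + ε0 * ((8 : ℕ) : ℝ)) ≤ n ^ (0 : ℝ) := by
          refine Real.rpow_le_rpow_of_exponent_le hn1 ?_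
          push_cast
          linarith
      _ = 1 := Real.rpow_zero n
  have hnε : 0 ≤ n ^ (-ε) := by positivity
  calc 1 / (CL ^ 3 * C') * n ^ (-ε) * min (n ^ 2) (min (n * (n / K) ^ (3 / 2 : ℝ))
        ((n * (n / K)) ^ (8 / 7 : ℝ)))
      ≤ 1 / (CL ^ 3 * C') * n ^ (-ε) * (CL ^ 3 * C' * κ ^ 8 * G) := by gcongr
    _ = (n ^ (-ε) * κ ^ 8) * G := by field_simp
    _ ≤ 1 * G := by gcongr
    _ = G := one_mul G

end Pool.Agent.Zk30.AR
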